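import Pool.Agent.UMG.StmtsB
import Pool.Agent.UMG.StmtsD

/-!
# Squad UMG, bridge from BUR (block B) to BUX (block D)
-/

set_option autoImplicit false

namespace Pool.Agent.UMG.H84

open Finset Pool.Agent.UMG

theorem bux (h : Pool.Agent.UMG.B.BurStmt) : BuxStmt := by
  intro d B hd hB
  rw [← h d hd B hB]
  congr 1
  funext c
  refine Nat.card_congr
    { toFun := fun x => ⟨fun j => ⟨x.1 j, ?_⟩, ?_⟩
      invFun := fun x => ⟨fun j => (x.1 j : ℕ), ?_, ?_⟩
      left_inv := ?_
      right_inv := ?_ }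
  · exact Finset.mem_range.1 (Fintype.mem_piFinset.1 x.2.1 j)
  · exact x.2.2
  · exact Fintype.mem_piFinset.2 (fun j => Finset.mem_range.2 (x.1 j).2)
  · exact x.2
  · intro x
    rfl
  · intro x
    rfl

end Pool.Agent.UMG.H84
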