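import Pool.Agent.UMG.StmtsD
import Pool.Agent.UMG.StmtsE

/-!
# Squad UMG, the final assembly
-/

set_option autoImplicit false

namespace Pool.Agent.UMG.H84

open Finset Pool.Agent.UMG

theorem digit_mod (L R t r : ℕ) (h : t < R) :
    r % 2 ^ (L * R) / 2 ^ (L * t) % 2 ^ L = r / 2 ^ (L * t) % 2 ^ L := by
  have e : 2 ^ (L * R) = 2 ^ (L * t) * 2 ^ (L * (R - t)) := by
    rw [← pow_add, ← Nat.mul_add]
    congr 2
    omega
  rw [e, Nat.mod_mul_right_div_self]
  apply Nat.mod_mod_of_dvd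
  apply pow_dvd_pow
  have : 1 ≤ R - t := by omega
  calc L = L * 1 := (Nat.mul_one L).symm
    _ ≤ L * (R - t) := Nat.mul_le_mul_left L this

theorem fst_mod (h : ℕ → ℕ) (L R r : ℕ) : ∀ R', R' ≤ R →
    fst h L R' (r % 2 ^ (L * R)) = fst h L R' r := by
  intro R'
  induction R' with
  | zero => intro _; rfl
  | succ n ih =>
    intro hn
    have e1 : ∀ r', fst h L (n + 1) r' =
        if fst h L n r' ≠ 0 then fst h L n r' else h (r' / 2 ^ (L * n) % 2 ^ L) := fun _ => rfl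
    rw [e1, e1, ih (by omega), digit_mod L R n r (by omega)]

theorem lift_card (hmod : ModStmt) (h : ℕ → ℕ) (L R ℓ : ℕ) (hl : L * R ≤ ℓ) (P : ℕ → Prop) :
    Nat.card {r : ℕ // r < 2 ^ ℓ ∧ P (fst h L R r)} =
      2 ^ (ℓ - L * R) * Nat.card {r : ℕ // r < 2 ^ (L * R) ∧ P (fst h L R r)} := by
  classical
  have key : ∀ m : ℕ, Nat.card {r : ℕ // r < 2 ^ m ∧ P (fst h L R r)} =
      ∑ r ∈ range (2 ^ m), if P (fst h L R r) then 1 else 0 := by
    intro m
    rw [← Finset.card_filter]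
    rw [← Nat.card_eq_finsetCard]
    apply Nat.card_congr
    refine Equiv.subtypeEquivRight fun r => ?_
    rw [Finset.mem_filter, Finset.mem_range]
  rw [key, key]
  have e : 2 ^ ℓ = 2 ^ (ℓ - L * R) * 2 ^ (L * R) := by
    rw [← pow_add]
    congr 1
    omega
  have h1 := hmod (2 ^ (ℓ - L * R)) (2 ^ (L * R)) (fun r => if P (fst h L R r) then 1 else 0)
  rw [e, ← h1]
  apply Finset.sum_congr rfl
  intro r _
  rw [fst_mod h L R r R le_rfl]

theorem card_filter' (m : ℕ) (P : ℕ → Prop) [DecidablePred P] :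
    ((range m).filter P).card = Nat.card {r : ℕ // r < m ∧ P r} := by
  rw [← Nat.card_eq_finsetCard]
  apply Nat.card_congr
  refine Equiv.subtypeEquivRight fun r => ?_
  rw [Finset.mem_filter, Finset.mem_range]

theorem res (hmod : ModStmt) (hfin : FinStmt) (hpgm : PgmStmt) (hstt : SttStmt) : ResStmt := by
  intro η h0 h1
  obtain ⟨K, A, _, hfin⟩ := hfin η h0 h1
  obtain ⟨e, C0, hpgm⟩ := hpgm K A
  obtain ⟨C1, hstt⟩ := hstt K
  refine ⟨e, C1 + A + 2, (C1 + A + 3 + 1) * C0, fun d hd hev hgood s => ?_⟩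
  have hG : Good η d := ⟨hgood, hev⟩
  obtain ⟨f1, f2⟩ := hfin d hd hG s
  set N := d.length + d.sum + s + 2 with hN
  have hN2 : 2 ≤ N := by omega
  set ℓ := N ^ (C1 + A + 2) with hℓ
  have hL : Nat.size (TT K d) * RR A d s ≤ ℓ := by
    have a1 : Nat.size (TT K d) ≤ N ^ C1 :=
      (hstt d).trans (Nat.pow_le_pow_left (by omega) _)
    have a2 : RR A d s ≤ N ^ (A + 2) := by
      unfold RR
      have b1 : (d.sum + 2) ^ A ≤ N ^ A := Nat.pow_le_pow_left (by omega) _
      have b2 : s ≤ N := by omega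
      calc 2 * (d.sum + 2) ^ A * s ≤ N * N ^ A * N :=
            Nat.mul_le_mul (Nat.mul_le_mul hN2 b1) b2
        _ = N ^ (A + 2) := by ring
    calc Nat.size (TT K d) * RR A d s ≤ N ^ C1 * N ^ (A + 2) := Nat.mul_le_mul a1 a2
      _ = ℓ := by rw [hℓ, ← pow_add]; congr 1
  have hev : ∀ r, eval e (env d s r) = alg K A d s r := fun r => (hpgm d s r).1
  refine ⟨fun r hr => ?_, fun B hB B' hB' => ?_, ?_⟩
  · have a1 : Nat.size r ≤ ℓ := Nat.size_le.2 hr
    have a2 : d.length + d.sum + s + Nat.size r + 2 ≤ N ^ (C1 + A + 3 + 1) := by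
      have b1 : N ≤ N ^ (C1 + A + 3) := by
        calc N = N ^ 1 := (pow_one N).symm
          _ ≤ N ^ (C1 + A + 3) := Nat.pow_le_pow_right (by omega) (by omega)
      have b2 : ℓ ≤ N ^ (C1 + A + 3) := Nat.pow_le_pow_right (by omega) (by omega)
      have b3 : N ^ (C1 + A + 3 + 1) = N ^ (C1 + A + 3) * N := pow_succ _ _
      have b4 : N ^ (C1 + A + 3) * 2 ≤ N ^ (C1 + A + 3) * N := Nat.mul_le_mul_left _ hN2
      omega
    calc time e (env d s r) ≤ (d.length + d.sum + s + Nat.size r + 2) ^ C0 := (hpgm d s r).2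
      _ ≤ (N ^ (C1 + A + 3 + 1)) ^ C0 := Nat.pow_le_pow_left a2 _
      _ = N ^ ((C1 + A + 3 + 1) * C0) := by rw [← pow_mul]
  · have g1 := lift_card hmod (trial K d) (Nat.size (TT K d)) (RR A d s) ℓ hL
    have g2 : ∀ B'' : Fin d.length → Fin d.length → ℕ, hits e d s ℓ B'' =
        Nat.card {r : ℕ // r < 2 ^ ℓ ∧
          Hit d.sum (Om d) B'' (fst (trial K d) (Nat.size (TT K d)) (RR A d s) r)} := by
      intro B''
      unfold hits Hit
      apply Nat.card_congr
      refine Equiv.subtypeEquivRight fun r => ?_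
      rw [hev r]
      rfl
    rw [g2, g2, g1, g1]
    congr 1
    have g3 := f1 B hB B' hB'
    rw [card_filter', card_filter'] at g3
    exact g3
  · have g1 := lift_card hmod (trial K d) (Nat.size (TT K d)) (RR A d s) ℓ hL
      (fun y => ¬ ∃ A' ∈ Om d, y = out d.sum A')
    have g2 : fails e d s ℓ = Nat.card {r : ℕ // r < 2 ^ ℓ ∧
        ¬ ∃ A' ∈ Om d, fst (trial K d) (Nat.size (TT K d)) (RR A d s) r = out d.sum A'} := by
      unfold fails
      apply Nat.card_congr
      refine Equiv.subtypeEquivRight fun r => ?_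
      rw [hev r]
      rfl
    rw [g2, g1]
    rw [card_filter'] at f2
    have e2 : 2 ^ ℓ = 2 ^ (ℓ - Nat.size (TT K d) * RR A d s) *
        2 ^ (Nat.size (TT K d) * RR A d s) := by
      rw [← pow_add]
      congr 1
      omega
    rw [e2, Nat.mul_left_comm]
    exact Nat.mul_le_mul_left _ f2

end Pool.Agent.UMG.H84
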